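import Pool.Agent.Helper95.NW.NqDefs
import Pool.Agent.Helper53.NW.CYN

set_option autoImplicit false

universe u

namespace Pool.Agent.Helper95.NW

open Pool.Agent.Helper52.Wq2 Pool.Agent.Helper61.NW Pool.Agent.Helper53.NW

section

variable {Γ : Type u} [Group Γ] {S : Set Γ} {h : Γ → ℤ} {s : Γ} {H n m : ℕ}

theorem adj_shift (T : Two S h s H n m) {a b : Γ} (hab : (cay S).Adj a b) (c : ℤ) :
    (cay S).Adj (a * s ^ ((m : ℤ) * c)) (b * s ^ ((m : ℤ) * c)) := by
  rw [cay_adj T.gen] at hab ⊢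
  have h1 : (a * s ^ ((m : ℤ) * c))⁻¹ * (b * s ^ ((m : ℤ) * c)) = a⁻¹ * b := by
    rw [central T a c, central T b c]
    group
  rwa [h1]

theorem seg_conn (T : Two S h s H n m) (e : (Γ ⧸ Subgroup.zpowers s) ≃ ZMod n) (l : ZMod n)
    (u v : ℤ) (huv : u < v) : Conn (cay S) {g : Γ | e (g : Γ ⧸ Subgroup.zpowers s) = l ∧
      u ≤ pos h H g ∧ pos h H g < v} := by
  obtain ⟨g, hg⟩ := QuotientGroup.mk_surjective (e.symm l)
  have hset : {g' : Γ | e (g' : Γ ⧸ Subgroup.zpowers s) = l ∧ u ≤ pos h H g' ∧ pos h H g' < v} =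
      {w : Γ | ∃ i : ℤ, (u ≤ pos h H g + i ∧ pos h H g + i < v) ∧ g * s ^ i = w} := by
    ext g'
    constructor
    · rintro ⟨h1, h2⟩
      have h3 : (g : Γ ⧸ Subgroup.zpowers s) = (g' : Γ ⧸ Subgroup.zpowers s) := by
        rw [← h1, Equiv.symm_apply_apply] at hg
        exact hg
      obtain ⟨i, hi⟩ := line_eq h3
      subst hi
      rw [pos_mul T] at h2
      exact ⟨i, h2, rfl⟩
    · rintro ⟨i, h1, rfl⟩
      refine ⟨?_, ?_⟩
      · rw [line_mul]
        have h4 : (g : Γ ⧸ Subgroup.zpowers s) = e.symm l := hg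
        rw [h4, Equiv.apply_symm_apply]
      · rw [pos_mul T]
        exact h1
  rw [hset]
  refine conn_line (fun i => g * s ^ i) _ (u - pos h H g) ?_ ?_ ?_ ?_
  · constructor <;> omega
  · intro i hi hP
    constructor <;> omega
  · intro i hi hP
    constructor <;> omega
  · intro i _ _
    show (cay S).Adj (g * s ^ i) (g * s ^ (i + 1))
    rw [zpow_add_one, ← mul_assoc]
    exact cay_adj_mul T.gen _ T.hs

theorem exists_at (T : Two S h s H n m) (e : (Γ ⧸ Subgroup.zpowers s) ≃ ZMod n) (l : ZMod n)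
    (u : ℤ) : ∃ g : Γ, e (g : Γ ⧸ Subgroup.zpowers s) = l ∧ pos h H g = u := by
  obtain ⟨g, hg⟩ := QuotientGroup.mk_surjective (e.symm l)
  refine ⟨g * s ^ (u - pos h H g), ?_, ?_⟩
  · rw [line_mul]
    have h4 : (g : Γ ⧸ Subgroup.zpowers s) = e.symm l := hg
    rw [h4, Equiv.apply_symm_apply]
  · rw [pos_mul T]; omega

/-- A normalized crossing. -/
theorem crs_norm (T : Two S h s H n m) (e : (Γ ⧸ Subgroup.zpowers s) ≃ ZMod n) (l : ZMod n)
    (hc : Crs S h s H n e l) : ∃ p : ℤ, 0 ≤ p ∧ p < m ∧ ∀ k : ℤ, ∃ a b a' b' : Γ,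
      e (a : Γ ⧸ Subgroup.zpowers s) = l ∧ e (b : Γ ⧸ Subgroup.zpowers s) = l + 1 ∧
      e (a' : Γ ⧸ Subgroup.zpowers s) = l ∧ e (b' : Γ ⧸ Subgroup.zpowers s) = l + 1 ∧
      pos h H a = p + m * k - 1 ∧ pos h H b = p + m * k ∧ pos h H a' = p + m * k ∧
      pos h H b' = p + m * k - 1 ∧ (cay S).Adj a b ∧ (cay S).Adj a' b' := by
  obtain ⟨a, b, ha, hb, hh, h1, h2⟩ := hc
  have hm : (0 : ℤ) < m := by exact_mod_cast T.mpos
  have hH : (0 : ℤ) < H := by exact_mod_cast T.Hpos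
  have hpb : pos h H b = pos h H a + 1 := by
    unfold pos
    rw [hh]
    have := Int.add_mul_ediv_right (h a) 1 (ne_of_gt hH)
    rw [one_mul] at this
    exact this
  have ha1 : (cay S).Adj a b := (cay_adj T.gen a b).2 h1
  have ha2 : (cay S).Adj (a * s) (b * s⁻¹) := (cay_adj T.gen _ _).2 h2
  refine ⟨(pos h H a + 1) % m, Int.emod_nonneg _ hm.ne', Int.emod_lt_of_pos _ hm, ?_⟩
  intro k
  have h3 := Int.emod_add_mul_ediv (pos h H a + 1) m
  set c : ℤ := k - (pos h H a + 1) / m with hcdef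
  have h4 : (m : ℤ) * c = m * k - m * ((pos h H a + 1) / m) := by rw [hcdef]; ring
  have e1 : a * s * s ^ ((m : ℤ) * c) = a * s ^ ((m : ℤ) * c + 1) := by
    rw [add_comm, zpow_one_add, mul_assoc]
  have e2 : b * s⁻¹ * s ^ ((m : ℤ) * c) = b * s ^ ((m : ℤ) * c - 1) := by
    rw [sub_eq_add_neg, add_comm, zpow_add, zpow_neg_one, mul_assoc]
  have hs2 := adj_shift T ha2 c
  rw [e1, e2] at hs2
  refine ⟨a * s ^ ((m : ℤ) * c), b * s ^ ((m : ℤ) * c), a * s ^ ((m : ℤ) * c + 1),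
    b * s ^ ((m : ℤ) * c - 1), ?_, ?_, ?_, ?_, ?_, ?_, ?_, ?_, adj_shift T ha1 c, hs2⟩
  · rw [line_mul, ha]
  · rw [line_mul, hb]
  · rw [line_mul, ha]
  · rw [line_mul, hb]
  · rw [pos_mul T]; omega
  · rw [pos_mul T]; omega
  · rw [pos_mul T]; omega
  · rw [pos_mul T]; omega

/-- A link between consecutive lines, in a given window of length `2 m`. -/
theorem link (T : Two S h s H n m) (e : (Γ ⧸ Subgroup.zpowers s) ≃ ZMod n) (he : IsCyc S s n e)
    (l : ZMod n) (y : ℤ) : ∃ a b : Γ, e (a : Γ ⧸ Subgroup.zpowers s) = l ∧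
      e (b : Γ ⧸ Subgroup.zpowers s) = l + 1 ∧ (y ≤ pos h H a ∧ pos h H a < y + 2 * m) ∧
      (y ≤ pos h H b ∧ pos h H b < y + 2 * m) ∧ (cay S).Adj a b := by
  have hm : (0 : ℤ) < m := by exact_mod_cast T.mpos
  have hadj : (Ln S s).Adj (e.symm l) (e.symm (l + 1)) := by
    rw [he]
    left
    rw [Equiv.apply_symm_apply, Equiv.apply_symm_apply]
  unfold Ln at hadj
  rw [SimpleGraph.fromRel_adj] at hadj
  have key : ∀ g t : Γ, t ∈ S → ∃ c : ℤ,
      (y ≤ pos h H (g * s ^ ((m : ℤ) * c)) ∧ pos h H (g * s ^ ((m : ℤ) * c)) < y + 2 * m) ∧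
      (y ≤ pos h H (g * t * s ^ ((m : ℤ) * c)) ∧
        pos h H (g * t * s ^ ((m : ℤ) * c)) < y + 2 * m) := by
    intro g t ht
    set p : ℤ := min (pos h H g) (pos h H (g * t)) with hp
    set c : ℤ := -((p - y) / m) with hc
    have e := pos_edge T g ht
    have h1 := Int.emod_nonneg (p - y) hm.ne'
    have h2 := Int.emod_lt_of_pos (p - y) hm
    have h3 := Int.emod_add_mul_ediv (p - y) m
    have h4 : (m : ℤ) * c = -((m : ℤ) * ((p - y) / m)) := by rw [hc]; ring
    refine ⟨c, ?_, ?_⟩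
    · rw [pos_mul T]
      rcases min_choice (pos h H g) (pos h H (g * t)) with h6 | h6
      · constructor <;> omega
      · have h7 := min_le_left (pos h H g) (pos h H (g * t))
        constructor <;> omega
    · rw [pos_mul T]
      rcases min_choice (pos h H g) (pos h H (g * t)) with h6 | h6
      · have h7 := min_le_right (pos h H g) (pos h H (g * t))
        constructor <;> omega
      · constructor <;> omega
  rcases hadj.2 with ⟨g, t, ht, hg1, hg2⟩ | ⟨g, t, ht, hg1, hg2⟩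
  · obtain ⟨c, h1, h2⟩ := key g t ht
    refine ⟨_, _, ?_, ?_, h1, h2, edge_shift T g ht c⟩
    · rw [line_mul, hg1, Equiv.apply_symm_apply]
    · rw [line_mul, hg2, Equiv.apply_symm_apply]
  · obtain ⟨c, h1, h2⟩ := key g t ht
    refine ⟨_, _, ?_, ?_, h2, h1, (edge_shift T g ht c).symm⟩
    · rw [line_mul, hg2, Equiv.apply_symm_apply]
    · rw [line_mul, hg1, Equiv.apply_symm_apply]

end

/-- The number of a line. -/
def li (q : ℕ) (v : Fin q × Bool) : ℕ := 2 * (v.1 : ℕ) + (if v.2 then 1 else 0)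

theorem li_inj {q : ℕ} {v w : Fin q × Bool} (h : li q v = li q w) : v = w := by
  obtain ⟨i, ε⟩ := v
  obtain ⟨j, δ⟩ := w
  unfold li at h
  simp only at h
  cases ε <;> cases δ
  · simp at h; rw [Fin.ext h]
  · simp at h; omega
  · simp at h; omega
  · simp at h; rw [Fin.ext h]

theorem li_lt {q : ℕ} (v : Fin q × Bool) : li q v < 2 * q := by
  have := v.1.2
  unfold li
  split_ifs <;> omega

theorem nq2 : Nq2Stmt.{u} := by
  intro Γ _ S h s H n m T hn e he q c hq hc
  have hm : (0 : ℤ) < m := by exact_mod_cast T.mpos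
  haveI : NeZero n := ⟨by omega⟩
  choose p hp0 hp1 hp using fun j => crs_norm T e _ (hc j)
  set L : ℤ := 3 * m with hL
  have hL0 : 0 < L := by omega
  set B : ℤ × (Fin q × Bool) → Set Γ := fun v => {g : Γ |
    e (g : Γ ⧸ Subgroup.zpowers s) = c + ((li q v.2 : ℕ) : ZMod n) ∧
    p v.2.1 + L * v.1 ≤ pos h H g ∧ pos h H g < p v.2.1 + L * v.1 + L} with hB
  have hl0 : ∀ j : Fin q, c + ((li q (j, false) : ℕ) : ZMod n) = c + 2 * ((j : ℕ) : ZMod n) := by
    intro j; unfold li; simp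
  have hl1 : ∀ j : Fin q, c + ((li q (j, true) : ℕ) : ZMod n) =
      c + 2 * ((j : ℕ) : ZMod n) + 1 := by
    intro j; unfold li; simp [add_assoc]
  have hl2 : ∀ j j' : Fin q, (j' : ℕ) = (j : ℕ) + 1 → c + ((li q (j', false) : ℕ) : ZMod n) =
      c + ((li q (j, true) : ℕ) : ZMod n) + 1 := by
    intro j j' hjj
    have : li q (j', false) = li q (j, true) + 1 := by unfold li; simp; omega
    rw [this]; push_cast; ring
  have hli : ∀ v w : Fin q × Bool, c + ((li q v : ℕ) : ZMod n) = c + ((li q w : ℕ) : ZMod n) →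
      v = w := by
    intro v w hvw
    apply li_inj
    have h1 := add_left_cancel hvw
    have h2 := li_lt v
    have h3 := li_lt w
    rw [ZMod.natCast_eq_natCast_iff', Nat.mod_eq_of_lt (by omega), Nat.mod_eq_of_lt (by omega)] at h1
    exact h1
  refine ⟨B, ?_, ?_, ?_⟩
  · intro v
    exact seg_conn T e _ _ _ (by omega)
  · rintro ⟨x, v⟩ ⟨y, w⟩ g ⟨h1, h2, h3⟩ ⟨h4, h5, h6⟩
    simp only at h1 h2 h3 h4 h5 h6
    have h7 := hli _ _ (h1.symm.trans h4)
    subst h7
    have a1 : L * x < L * (y + 1) := by rw [mul_add]; omega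
    have a2 : L * y < L * (x + 1) := by rw [mul_add]; omega
    have b1 := lt_of_mul_lt_mul_left a1 (le_of_lt hL0)
    have b2 := lt_of_mul_lt_mul_left a2 (le_of_lt hL0)
    have : x = y := by omega
    rw [this]
  · -- all edges with the smaller end first
    have up : ∀ (x : ℤ) (j : Fin q) (ε ε' : Bool), ∃ a ∈ B (x, (j, ε)),
        ∃ b ∈ B (x + 1, (j, ε')), (cay S).Adj a b := by
      intro x j ε ε'
      have hk : (m : ℤ) * (3 * (x + 1)) = L * (x + 1) := by rw [hL]; ring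
      have hk' : L * (x + 1) = L * x + L := by ring
      obtain ⟨a, b, a', b', f1, f2, f3, f4, f5, f6, f7, f8, f9, f10⟩ := hp j (3 * (x + 1))
      rw [hk, hk'] at f5 f6 f7 f8
      cases ε <;> cases ε'
      · obtain ⟨g, hg1, hg2⟩ := exists_at T e (c + ((li q (j, false) : ℕ) : ZMod n))
          (p j + L * x + L - 1)
        refine ⟨g, ⟨hg1, ?_, ?_⟩, g * s, ⟨?_, ?_, ?_⟩, cay_adj_mul T.gen _ T.hs⟩
        · simp only; omega
        · simp only; omega
        · have := line_mul (s := s) g 1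
          rw [zpow_one] at this
          rw [this]; exact hg1
        · have := pos_mul T g 1
          rw [zpow_one] at this
          simp only [hk', this]; omega
        · have := pos_mul T g 1
          rw [zpow_one] at this
          simp only [hk', this]; omega
      · refine ⟨a, ⟨by rw [f1, hl0], ?_, ?_⟩, b, ⟨by rw [f2, hl1], ?_, ?_⟩, f9⟩ <;>
          simp only [hk'] <;> omega
      · refine ⟨b', ⟨by rw [f4, hl1], ?_, ?_⟩, a', ⟨by rw [f3, hl0], ?_, ?_⟩, f10.symm⟩ <;>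
          simp only [hk'] <;> omega
      · obtain ⟨g, hg1, hg2⟩ := exists_at T e (c + ((li q (j, true) : ℕ) : ZMod n))
          (p j + L * x + L - 1)
        refine ⟨g, ⟨hg1, ?_, ?_⟩, g * s, ⟨?_, ?_, ?_⟩, cay_adj_mul T.gen _ T.hs⟩
        · simp only; omega
        · simp only; omega
        · have := line_mul (s := s) g 1
          rw [zpow_one] at this
          rw [this]; exact hg1
        · have := pos_mul T g 1
          rw [zpow_one] at this
          simp only [hk', this]; omega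
        · have := pos_mul T g 1
          rw [zpow_one] at this
          simp only [hk', this]; omega
    have lev : ∀ (x : ℤ) (j : Fin q), ∃ a ∈ B (x, (j, false)), ∃ b ∈ B (x, (j, true)),
        (cay S).Adj a b := by
      intro x j
      have hk : (m : ℤ) * (3 * x + 1) = L * x + m := by rw [hL]; ring
      obtain ⟨a, b, a', b', f1, f2, f3, f4, f5, f6, f7, f8, f9, f10⟩ := hp j (3 * x + 1)
      rw [hk] at f5 f6 f7 f8
      refine ⟨a, ⟨by rw [f1, hl0], ?_, ?_⟩, b, ⟨by rw [f2, hl1], ?_, ?_⟩, f9⟩ <;>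
        simp only <;> omega
    have nxt : ∀ (x : ℤ) (j j' : Fin q), (j' : ℕ) = (j : ℕ) + 1 → ∃ a ∈ B (x, (j, true)),
        ∃ b ∈ B (x, (j', false)), (cay S).Adj a b := by
      intro x j j' hjj
      obtain ⟨a, b, f1, f2, f3, f4, f5⟩ := link T e he (c + ((li q (j, true) : ℕ) : ZMod n))
        (L * x + m)
      have g1 := hp0 j
      have g2 := hp1 j
      have g3 := hp0 j'
      have g4 := hp1 j'
      refine ⟨a, ⟨f1, ?_, ?_⟩, b, ⟨by rw [f2, hl2 j j' hjj], ?_, ?_⟩, f5⟩ <;>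
        simp only <;> omega
    have pairE : ∀ (x y : ℤ) (j : Fin q) (ε ε' : Bool), |x - y| ≤ 1 →
        ((x, (j, ε)) : ℤ × (Fin q × Bool)) ≠ (y, (j, ε')) →
        ∃ a ∈ B (x, (j, ε)), ∃ b ∈ B (y, (j, ε')), (cay S).Adj a b := by
      intro x y j ε ε' hxy hne
      rw [abs_le] at hxy
      have h3 : y = x + 1 ∨ x = y + 1 ∨ x = y := by omega
      rcases h3 with rfl | rfl | rfl
      · exact up x j ε ε'
      · obtain ⟨a, ha, b, hb, hab⟩ := up y j ε' ε
        exact ⟨b, hb, a, ha, hab.symm⟩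
      · cases ε <;> cases ε'
        · exact absurd rfl hne
        · exact lev x j
        · obtain ⟨a, ha, b, hb, hab⟩ := lev x j
          exact ⟨b, hb, a, ha, hab.symm⟩
        · exact absurd rfl hne
    rintro ⟨x, ⟨j, ε⟩⟩ ⟨y, ⟨j', ε'⟩⟩ hadj
    unfold Nq at hadj
    rw [SimpleGraph.fromRel_adj] at hadj
    obtain ⟨hne, (⟨h1, h2⟩ | ⟨h1, h2, h3, h4⟩) | (⟨h1, h2⟩ | ⟨h1, h2, h3, h4⟩)⟩ := hadj
    · simp only at h1 h2
      subst h1
      exact pairE x y j ε ε' h2 hne
    · simp only at h1 h2 h3 h4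
      subst h1 h3 h4
      exact nxt x j j' h2
    · simp only at h1 h2
      subst h1
      rw [abs_sub_comm] at h2
      exact pairE x y j' ε ε' h2 hne
    · simp only at h1 h2 h3 h4
      subst h1 h3 h4
      obtain ⟨a, ha, b, hb, hab⟩ := nxt y j' j h2
      exact ⟨b, hb, a, ha, hab.symm⟩

end Pool.Agent.Helper95.NW
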