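import Pool.Agent.Helper95.NW.NQ1
import Pool.Agent.Helper95.NW.NQ2
import Pool.Agent.Helper7.NW.SHIFT

set_option autoImplicit false

universe u

namespace Pool.Agent.Helper95.NW

open Pool.Agent.Helper52.Wq2 Pool.Agent.Helper61.NW

theorem starZ_mono {ι κ : Type*} (f : ι → κ) (hf : Function.Injective f) :
    Mn (StarZ ι) (StarZ κ) := by
  refine Mn.of_inj (fun v => (v.1, v.2.map f)) ?_ ?_
  · rintro ⟨x, o⟩ ⟨y, o'⟩ h
    rw [Prod.mk.injEq] at h
    obtain ⟨h1, h2⟩ := h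
    simp only at h1 h2
    rw [h1, Option.map_injective hf h2]
  · rintro ⟨x, o⟩ ⟨y, o'⟩ hadj
    unfold StarZ at hadj ⊢
    rw [SimpleGraph.fromRel_adj] at hadj ⊢
    obtain ⟨hne, h⟩ := hadj
    refine ⟨?_, ?_⟩
    · intro he
      rw [Prod.mk.injEq] at he
      simp only at he
      exact hne (by rw [he.1, Option.map_injective hf he.2])
    · rcases h with (⟨h1, h2⟩ | ⟨h1, h2⟩) | (⟨h1, h2⟩ | ⟨h1, h2⟩)
      · exact Or.inl (Or.inl ⟨congrArg (Option.map f) h1, h2⟩)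
      · exact Or.inl (Or.inr ⟨h1, by simp only at h2 ⊢; rw [h2]; rfl⟩)
      · exact Or.inr (Or.inl ⟨congrArg (Option.map f) h1, h2⟩)
      · exact Or.inr (Or.inr ⟨h1, by simp only at h2 ⊢; rw [h2]; rfl⟩)

theorem crx : CrxStmt.{u} := by
  intro Γ _ S h s H n m T hn e he hc q hq
  obtain ⟨j0, hj0⟩ := Pool.Agent.Helper7.NW.crs_shift T hn e he hc
  exact ((starZ_mono (Fin.castSucc (n := q)) (Fin.castSucc_injective q)).trans
    (nq1 (q + 1) (Nat.succ_pos q))).trans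
    (nq2 Γ S h s H n m T hn e he (q + 1) j0 (by omega) (fun j => hj0 j))

end Pool.Agent.Helper95.NW
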