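import Pool.Agent.Helper95.NW.Layers

set_option autoImplicit false

namespace Pool.Agent.Helper95.NW

open Pool.Agent.Helper52.Wq2

/-- A finite connected bridge between two disjoint sets in a connected graph. -/
theorem exists_bridge {V : Type*} {G : SimpleGraph V} {x y : V} (p : G.Walk x y) (E : Set V) :
    ∀ (D : Set V) (_ : ∀ w ∈ D, w ∉ E) (_ : x ∈ D) (_ : y ∈ E),
    ∃ Q : Set V, Q.Finite ∧ Conn G Q ∧ (∃ d ∈ D, d ∈ Q ∧ ∀ w ∈ Q, w ∈ D → w = d) ∧
      (∀ w ∈ Q, w ∉ E) ∧ ∃ q ∈ Q, ∃ e ∈ E, G.Adj q e := by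
  classical
  induction p with
  | nil => intro D hDE hx hy; exact absurd hy (hDE _ hx)
  | @cons x z y hadj p ih =>
    intro D hDE hx hy
    by_cases hzD : z ∈ D
    · exact ih D hDE hzD hy
    · by_cases hzE : z ∈ E
      · exact ⟨{x}, Set.finite_singleton _, conn_singleton _ _,
          ⟨x, hx, rfl, fun w hw _ => hw⟩, fun w hw => by
            rw [Set.mem_singleton_iff.1 hw]; exact hDE _ hx, x, rfl, z, hzE, hadj⟩
      · obtain ⟨Q, hf, hc, ⟨d, hd, hdQ, hdu⟩, hQE, hq⟩ := ih (insert z D) (by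
          rintro w (rfl | hw)
          · exact hzE
          · exact hDE w hw) (Or.inl rfl) hy
        by_cases hdz : d = z
        · subst hdz
          refine ⟨{x} ∪ Q, (Set.finite_singleton _).union hf,
            (conn_singleton _ _).union hc rfl hdQ hadj, ⟨x, hx, Or.inl rfl, ?_⟩, ?_, ?_⟩
          · rintro w (hw | hw) hwD
            · exact hw
            · have := hdu w hw (Or.inr hwD)
              rw [this] at hwD
              exact absurd hwD hzD
          · rintro w (hw | hw)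
            · rw [Set.mem_singleton_iff.1 hw]; exact hDE _ hx
            · exact hQE w hw
          · obtain ⟨q, hq, h⟩ := hq
            exact ⟨q, Or.inr hq, h⟩
        · have hdD : d ∈ D := by
            rcases hd with h | h
            · exact absurd h hdz
            · exact h
          exact ⟨Q, hf, hc, ⟨d, hdD, hdQ, fun w hw hwD => hdu w hw (Or.inr hwD)⟩, hQE, hq⟩

theorem cay_conn {Γ : Type*} [Group Γ] {S : Set Γ} (hS : IsGen S) (x : Γ) :
    (cay S).Reachable 1 x := by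
  have h : x ∈ Subgroup.closure S := by rw [hS.1]; trivial
  induction h using Subgroup.closure_induction_right with
  | one => exact SimpleGraph.Reachable.refl _
  | mul_right x _ s hs ih => exact ih.trans (cay_adj_mul hS x hs).reachable
  | mul_inv_cancel x _ s hs ih =>
    exact ih.trans (cay_adj_mul hS x (hS.2.1 _ hs)).reachable

theorem two_layers {Γ : Type*} [Group Γ] {S : Set Γ} (hS : IsGen S) {s t k : Γ}
    (hs : s ∈ S) (ht : t ∈ S) (m : ℕ) (hm : 0 < m) (hsc : ∀ g, s ^ m * g = g * s ^ m)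
    (htc : ∀ g, t ^ m * g = g * t ^ m) {A : Type*} [CommGroup A] (f : Γ →* A)
    (hind : ∀ x y : ℤ, f s ^ x * f t ^ y = 1 → x = 0 ∧ y = 0) (hk : f k = 1) (hk1 : k ≠ 1) :
    Mn (StarZ ℕ) (cay S) := by
  have hsz : ∀ (i : ℤ) (g : Γ), s ^ ((m : ℤ) * i) * g = g * s ^ ((m : ℤ) * i) := by
    intro i g
    have h : Commute (s ^ m) g := hsc g
    have := h.zpow_left i
    rw [zpow_mul, zpow_natCast]
    exact this
  have htz : ∀ (i : ℤ) (g : Γ), t ^ ((m : ℤ) * i) * g = g * t ^ ((m : ℤ) * i) := by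
    intro i g
    have h : Commute (t ^ m) g := htc g
    have := h.zpow_left i
    rw [zpow_mul, zpow_natCast]
    exact this
  have hinj : ∀ a b c d : ℤ, f s ^ a * f t ^ b = f s ^ c * f t ^ d → a = c ∧ b = d := by
    intro a b c d h
    have h1 : f s ^ (a - c) * f t ^ (b - d) = 1 := by
      rw [zpow_sub, zpow_sub]
      calc f s ^ a * (f s ^ c)⁻¹ * (f t ^ b * (f t ^ d)⁻¹)
          = (f s ^ a * f t ^ b) * (f s ^ c * f t ^ d)⁻¹ := by
            rw [mul_inv]; exact mul_mul_mul_comm _ _ _ _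
        _ = 1 := by rw [h, mul_inv_cancel]
    obtain ⟨h2, h3⟩ := hind _ _ h1
    constructor <;> omega
  have hfu : ∀ a b : ℤ, f (s ^ a * t ^ b) = f s ^ a * f t ^ b := by
    intro a b; rw [map_mul, map_zpow, map_zpow]
  have hfv : ∀ a b : ℤ, f (k * (s ^ a * t ^ b)) = f s ^ a * f t ^ b := by
    intro a b; rw [map_mul, hk, one_mul, hfu]
  set D : Set Γ := {w | ∃ a b : ℤ, s ^ a * t ^ b = w} with hD
  set E : Set Γ := {w | ∃ a b : ℤ, k * (s ^ a * t ^ b) = w} with hE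
  have huv : ∀ a b c d : ℤ, s ^ a * t ^ b ≠ k * (s ^ c * t ^ d) := by
    intro a b c d h
    have h1 := congrArg f h
    rw [hfu, hfv] at h1
    obtain ⟨rfl, rfl⟩ := hinj _ _ _ _ h1
    exact hk1 (by
      have := mul_eq_right.1 h.symm
      exact this)
  have hDE : ∀ w ∈ D, w ∉ E := by
    rintro _ ⟨a, b, rfl⟩ ⟨c, d, h⟩
    exact huv a b c d h.symm
  obtain ⟨p⟩ := cay_conn hS k
  obtain ⟨Q, hQf, hQc, ⟨d, ⟨a0, b0, rfl⟩, hdQ, hdu⟩, hQE, q, hq, e, ⟨a1, b1, rfl⟩, hqe⟩ :=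
    exists_bridge p E D hDE ⟨0, 0, by simp⟩ ⟨0, 0, by simp⟩
  -- the size of the translates
  obtain ⟨B, hB⟩ : ∃ B : ℕ, ∀ x y : ℤ, ∀ w ∈ Q, ∀ w' ∈ Q, s ^ x * t ^ y * w = w' →
      |x| ≤ B ∧ |y| ≤ B := by
    have hfin : (Set.image2 (fun w w' : Γ => w' * w⁻¹) Q Q).Finite := hQf.image2 _ hQf
    have hinj' : Function.Injective (fun p : ℤ × ℤ => s ^ p.1 * t ^ p.2) := by
      rintro ⟨a, b⟩ ⟨c, d⟩ h
      have h1 := congrArg f h
      simp only [hfu] at h1
      obtain ⟨h2, h3⟩ := hinj _ _ _ _ h1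
      rw [h2, h3]
    have hfin2 := hfin.preimage (hinj'.injOn (s := (fun p : ℤ × ℤ => s ^ p.1 * t ^ p.2) ⁻¹'
      (Set.image2 (fun w w' : Γ => w' * w⁻¹) Q Q)))
    obtain ⟨T, hT⟩ := hfin2.exists_finset_coe
    refine ⟨T.sup (fun p => p.1.natAbs) + T.sup (fun p => p.2.natAbs), ?_⟩
    intro x y w hw w' hw' h
    have hmem : (x, y) ∈ T := by
      rw [← Finset.mem_coe, hT]
      exact ⟨w, hw, w', hw', by rw [← h]; simp⟩
    have h1 := Finset.le_sup (f := fun p : ℤ × ℤ => p.1.natAbs) hmem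
    have h2 := Finset.le_sup (f := fun p : ℤ × ℤ => p.2.natAbs) hmem
    simp only at h1 h2
    refine ⟨?_, ?_⟩ <;> rw [Int.abs_eq_natAbs] <;> omega
  set M : ℤ := (m : ℤ) * (B + 1) with hMdef
  have hm' : (0 : ℤ) < m := by exact_mod_cast hm
  have hMB : (B : ℤ) < M := by
    rw [hMdef]; nlinarith
  have hM0 : 0 < M := by omega
  have hbig : ∀ i : ℤ, |M * i| ≤ B → i = 0 := by
    intro i hi
    by_contra hne
    have h1 : 1 ≤ |i| := Int.one_le_abs hne
    rw [abs_mul, abs_of_pos hM0] at hi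
    nlinarith
  have hMi : ∀ i : ℤ, M * i = (m : ℤ) * ((B + 1) * i) := by intro i; rw [hMdef]; ring
  have cs : ∀ (i : ℤ) (g : Γ), s ^ (M * i) * g = g * s ^ (M * i) := by
    intro i g; rw [hMi]; exact hsz _ _
  have ct : ∀ (i : ℤ) (g : Γ), t ^ (M * i) * g = g * t ^ (M * i) := by
    intro i g; rw [hMi]; exact htz _ _
  have mv : ∀ i x a b : ℤ, s ^ (M * i) * t ^ (M * x) * (s ^ a * t ^ b) =
      s ^ (a + M * i) * t ^ (b + M * x) := by
    intro i x a b
    calc s ^ (M * i) * t ^ (M * x) * (s ^ a * t ^ b)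
        = s ^ (M * i) * (t ^ (M * x) * (s ^ a * t ^ b)) := mul_assoc _ _ _
      _ = s ^ (M * i) * ((s ^ a * t ^ b) * t ^ (M * x)) := by rw [ct]
      _ = (s ^ (M * i) * s ^ a) * (t ^ b * t ^ (M * x)) := by simp only [mul_assoc]
      _ = (s ^ a * s ^ (M * i)) * (t ^ b * t ^ (M * x)) := by rw [cs]
      _ = s ^ (a + M * i) * t ^ (b + M * x) := by rw [zpow_add, zpow_add]
  have mvk : ∀ i x a b : ℤ, s ^ (M * i) * t ^ (M * x) * (k * (s ^ a * t ^ b)) =
      k * (s ^ (a + M * i) * t ^ (b + M * x)) := by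
    intro i x a b
    rw [← mv]
    calc s ^ (M * i) * t ^ (M * x) * (k * (s ^ a * t ^ b))
        = s ^ (M * i) * (t ^ (M * x) * k) * (s ^ a * t ^ b) := by simp only [mul_assoc]
      _ = s ^ (M * i) * (k * t ^ (M * x)) * (s ^ a * t ^ b) := by rw [ct]
      _ = (s ^ (M * i) * k) * (t ^ (M * x) * (s ^ a * t ^ b)) := by simp only [mul_assoc]
      _ = (k * s ^ (M * i)) * (t ^ (M * x) * (s ^ a * t ^ b)) := by rw [cs]
      _ = k * (s ^ (M * i) * t ^ (M * x) * (s ^ a * t ^ b)) := by simp only [mul_assoc]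
  have cancel : ∀ (i x : ℤ) (g h : Γ), s ^ (M * i) * t ^ (M * x) * g = h →
      g = s ^ (M * (-i)) * t ^ (M * (-x)) * h := by
    rintro i x g _ rfl
    calc g = s ^ (M * (-i)) * s ^ (M * i) * (t ^ (M * (-x)) * t ^ (M * x)) * g := by
          rw [← zpow_add, ← zpow_add]
          have e1 : M * (-i) + M * i = 0 := by ring
          have e2 : M * (-x) + M * x = 0 := by ring
          rw [e1, e2, zpow_zero, zpow_zero, one_mul, one_mul]
      _ = s ^ (M * (-i)) * (s ^ (M * i) * t ^ (M * (-x))) * (t ^ (M * x) * g) := by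
          simp only [mul_assoc]
      _ = s ^ (M * (-i)) * (t ^ (M * (-x)) * s ^ (M * i)) * (t ^ (M * x) * g) := by
          rw [cs i (t ^ (M * (-x)))]
      _ = s ^ (M * (-i)) * t ^ (M * (-x)) * (s ^ (M * i) * t ^ (M * x) * g) := by
          simp only [mul_assoc]
  have adjL : ∀ c a b : Γ, (cay S).Adj a b → (cay S).Adj (c * a) (c * b) := by
    intro c a b h
    rw [cay_adj hS] at h ⊢
    rwa [mul_inv_rev, mul_assoc, inv_mul_cancel_left]
  have u1 : ∀ a b : ℤ, (cay S).Adj (s ^ a * t ^ b) (s ^ a * t ^ (b + 1)) := by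
    intro a b
    have := cay_adj_mul hS (s ^ a * t ^ b) ht
    rwa [mul_assoc, ← zpow_add_one] at this
  have u2 : ∀ a b : ℤ, (m : ℤ) ∣ b → (cay S).Adj (s ^ a * t ^ b) (s ^ (a + 1) * t ^ b) := by
    rintro a _ ⟨c, rfl⟩
    have := cay_adj_mul hS (s ^ a * t ^ ((m : ℤ) * c)) hs
    rwa [mul_assoc, htz, ← mul_assoc, ← zpow_add_one] at this
  refine star_of_layers (G := cay S) M (m : ℤ) hM0
    ⟨(B : ℤ) + 1, hMdef⟩ (fun a b => s ^ a * t ^ b) (fun a b => k * (s ^ a * t ^ b)) huv ?_ ?_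
    u1 u2 (fun a b => adjL _ _ _ (u1 a b)) (fun a b h => adjL _ _ _ (u2 a b h))
    (fun i x => (fun g => s ^ (M * i) * t ^ (M * x) * g) '' Q) ?_ a0 b0 a1 b1 ?_ ?_ ?_ ?_ ?_
  · intro a b c d h
    have h1 := congrArg f h
    simp only [hfu] at h1
    exact hinj _ _ _ _ h1
  · intro a b c d h
    have h1 := congrArg f h
    simp only [hfv] at h1
    exact hinj _ _ _ _ h1
  · intro i x
    exact hQc.image _ (fun a _ b _ h => Or.inr (adjL _ _ _ h))
  · intro i x
    exact ⟨_, hdQ, mv _ _ _ _⟩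
  · rintro i x a b ⟨w, hw, h⟩
    have h1 := cancel _ _ _ _ h
    rw [mv] at h1
    have h2 := hdu w hw ⟨_, _, h1.symm⟩
    rw [h1] at h2
    have h3 := congrArg f h2
    rw [hfu, hfu] at h3
    obtain ⟨h4, h5⟩ := hinj _ _ _ _ h3
    constructor
    · rw [← h4]; ring
    · rw [← h5]; ring
  · rintro i x a b ⟨w, hw, h⟩
    have h1 := cancel _ _ _ _ h
    rw [mvk] at h1
    exact hQE w hw ⟨_, _, h1.symm⟩
  · rintro i x i' x' w ⟨w1, hw1, h1⟩ ⟨w2, hw2, h2⟩
    have h3 : s ^ (M * (i - i')) * t ^ (M * (x - x')) * w1 = w2 := by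
      have h4 := cancel _ _ _ _ h2
      rw [h4, ← h1]
      have e1 : M * (i - i') = M * (-i') + M * i := by ring
      have e2 : M * (x - x') = M * (-x') + M * x := by ring
      rw [e1, e2, zpow_add, zpow_add]
      calc s ^ (M * (-i')) * s ^ (M * i) * (t ^ (M * (-x')) * t ^ (M * x)) * w1
          = s ^ (M * (-i')) * (s ^ (M * i) * t ^ (M * (-x'))) * (t ^ (M * x) * w1) := by
            simp only [mul_assoc]
        _ = s ^ (M * (-i')) * (t ^ (M * (-x')) * s ^ (M * i)) * (t ^ (M * x) * w1) := by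
            rw [cs i (t ^ (M * (-x')))]
        _ = s ^ (M * (-i')) * t ^ (M * (-x')) * (s ^ (M * i) * t ^ (M * x) * w1) := by
            simp only [mul_assoc]
    obtain ⟨h5, h6⟩ := hB _ _ _ hw1 _ hw2 h3
    have h7 := hbig _ h5
    have h8 := hbig _ h6
    constructor <;> omega
  · intro i x
    refine ⟨_, ⟨q, hq, rfl⟩, ?_⟩
    have := adjL (s ^ (M * i) * t ^ (M * x)) _ _ hqe
    rwa [mvk] at this

end Pool.Agent.Helper95.NW
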