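import Pool.Agent.Helper95.NW.TwoLayer
import Pool.Agent.Helper61.NW.Goals

set_option autoImplicit false

universe u

namespace Pool.Agent.Helper95.NW

open Pool.Agent.Helper52.Wq2

/-- A power of every element is central. -/
theorem pow_central {Γ : Type u} [Group Γ] {A : Type*} [CommGroup A] (h : Γ →* A)
    (hK : (h.ker : Set Γ).Finite) (s : Γ) : ∃ m : ℕ, 0 < m ∧ ∀ g, s ^ m * g = g * s ^ m := by
  classical
  haveI : Finite h.ker := hK
  -- conjugation by `s` on the kernel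
  have h1 : ∃ a : ℕ, 0 < a ∧ ∀ k ∈ h.ker, s ^ a * k = k * s ^ a := by
    let c : Γ →* MulAut h.ker := MulAut.conjNormal
    have hfo : IsOfFinOrder (c s) := isOfFinOrder_of_finite _
    obtain ⟨a, ha, hc⟩ := isOfFinOrder_iff_pow_eq_one.1 hfo
    refine ⟨a, ha, ?_⟩
    intro k hk
    have h2 : c (s ^ a) = 1 := by rw [map_pow]; exact hc
    have h3 := congrArg (fun e : MulAut h.ker => ((e ⟨k, hk⟩ : h.ker) : Γ)) h2
    simp only [c, MulAut.conjNormal_apply, MulAut.one_apply] at h3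
    exact mul_inv_eq_iff_eq_mul.1 h3
  obtain ⟨a, ha, hak⟩ := h1
  refine ⟨a * Nat.card h.ker, Nat.mul_pos ha Nat.card_pos, ?_⟩
  intro g
  set k : Γ := g * s ^ a * g⁻¹ * (s ^ a)⁻¹ with hkdef
  have hk : k ∈ h.ker := by
    rw [MonoidHom.mem_ker, hkdef]
    simp only [map_mul, map_inv]
    rw [mul_comm (h g), mul_inv_cancel_right, mul_inv_cancel]
  have e1 : g * s ^ a * g⁻¹ = k * s ^ a := by rw [hkdef]; simp
  have hcomm : Commute k (s ^ a) := (hak k hk).symm
  have hkc : k ^ Nat.card h.ker = 1 := by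
    have := pow_card_eq_one' (G := h.ker) (x := ⟨k, hk⟩)
    have h4 := congrArg (fun y : h.ker => (y : Γ)) this
    simpa using h4
  have e2 : g * (s ^ a) ^ Nat.card h.ker * g⁻¹ = (s ^ a) ^ Nat.card h.ker := by
    rw [← conj_pow, e1, hcomm.mul_pow, hkc, one_mul]
  rw [pow_mul]
  exact (mul_inv_eq_iff_eq_mul.1 e2).symm

theorem ind_gen {Γ : Type u} [Group Γ] (h : Γ →* Multiplicative (ℤ × ℤ)) {S : Set Γ}
    (hsurj : Function.Surjective h) (hS : IsGen S) : ∃ s ∈ S, ∃ t ∈ S,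
      ∀ x y : ℤ, h s ^ x * h t ^ y = 1 → x = 0 ∧ y = 0 := by
  classical
  set X : Γ → ℤ := fun g => (Multiplicative.toAdd (h g)).1 with hX
  set Y : Γ → ℤ := fun g => (Multiplicative.toAdd (h g)).2 with hY
  have Xm : ∀ a b, X (a * b) = X a + X b := by
    intro a b; simp [hX]
  have Ym : ∀ a b, Y (a * b) = Y a + Y b := by
    intro a b; simp [hY]
  have Xi : ∀ a, X a⁻¹ = - X a := by
    intro a; simp [hX]
  have Yi : ∀ a, Y a⁻¹ = - Y a := by
    intro a; simp [hY]
  have X1 : X 1 = 0 := by simp [hX]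
  have Y1 : Y 1 = 0 := by simp [hY]
  have lin : ∀ p q : ℤ, (∀ t ∈ S, p * Y t - q * X t = 0) → ∀ g, p * Y g - q * X g = 0 := by
    intro p q hpq g
    have hg : g ∈ Subgroup.closure S := by rw [hS.1]; trivial
    induction hg using Subgroup.closure_induction with
    | mem x hx => exact hpq x hx
    | one => rw [X1, Y1]; ring
    | mul x y _ _ hx hy => rw [Xm, Ym]; linarith
    | inv x _ hx => rw [Xi, Yi]; linarith
  obtain ⟨g1, hg1⟩ := hsurj (Multiplicative.ofAdd ((1 : ℤ), (0 : ℤ)))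
  obtain ⟨g2, hg2⟩ := hsurj (Multiplicative.ofAdd ((0 : ℤ), (1 : ℤ)))
  have a1 : X g1 = 1 := by simp [hX, hg1]
  have a2 : Y g1 = 0 := by simp [hY, hg1]
  have a3 : X g2 = 0 := by simp [hX, hg2]
  have a4 : Y g2 = 1 := by simp [hY, hg2]
  obtain ⟨s, hs, t, ht, hd⟩ : ∃ s ∈ S, ∃ t ∈ S, X s * Y t - Y s * X t ≠ 0 := by
    by_contra hcon
    push Not at hcon
    have h0 : ∀ s ∈ S, X s = 0 ∧ Y s = 0 := by
      intro s hs
      have h1 := lin (X s) (Y s) (hcon s hs) g1
      have h2 := lin (X s) (Y s) (hcon s hs) g2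
      rw [a1, a2] at h1
      rw [a3, a4] at h2
      constructor <;> linarith
    have h3 := lin 1 0 (fun t ht => by rw [(h0 t ht).1, (h0 t ht).2]; ring) g2
    rw [a3, a4] at h3
    norm_num at h3
  refine ⟨s, hs, t, ht, ?_⟩
  intro x y hxy
  have e1 : x * X s + y * X t = 0 := by
    have := congrArg (fun z : Multiplicative (ℤ × ℤ) => (Multiplicative.toAdd z).1) hxy
    simpa [hX] using this
  have e2 : x * Y s + y * Y t = 0 := by
    have := congrArg (fun z : Multiplicative (ℤ × ℤ) => (Multiplicative.toAdd z).2) hxy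
    simpa [hY] using this
  have f1 : x * (X s * Y t - Y s * X t) = 0 := by
    linear_combination Y t * e1 - X t * e2
  have f2 : y * (X s * Y t - Y s * X t) = 0 := by
    linear_combination X s * e2 - Y s * e1
  exact ⟨(mul_eq_zero.1 f1).resolve_right hd, (mul_eq_zero.1 f2).resolve_right hd⟩

theorem gr2 : Pool.Agent.Helper61.NW.Gr2Stmt.{u} := by
  intro Γ _ h S hsurj hK ⟨k, hk1, hk⟩ hS _
  classical
  -- two generators with independent images
  obtain ⟨s, hs, t, ht, hind⟩ : ∃ s ∈ S, ∃ t ∈ S,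
      ∀ x y : ℤ, h s ^ x * h t ^ y = 1 → x = 0 ∧ y = 0 := ind_gen h hsurj hS
  obtain ⟨m1, hm1, hc1⟩ := pow_central h hK s
  obtain ⟨m2, hm2, hc2⟩ := pow_central h hK t
  refine two_layers hS hs ht (m1 * m2) (Nat.mul_pos hm1 hm2) ?_ ?_ h hind hk hk1
  · intro g
    rw [pow_mul]
    have : Commute (s ^ m1) g := hc1 g
    exact this.pow_left _
  · intro g
    rw [mul_comm m1, pow_mul]
    have : Commute (t ^ m2) g := hc2 g
    exact this.pow_left _

end Pool.Agent.Helper95.NW
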