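import Pool.Agent.Helper52.Wq2.Stars

set_option autoImplicit false

namespace Pool.Agent.Helper95.NW

open Pool.Agent.Helper52.Wq2

variable {V : Type*}

theorem conn_full {G : SimpleGraph V} {s T A : Set V} (hT : Conn G T) (hTs : T ⊆ s)
    (hcl : ∀ a ∈ A, ∀ b ∈ s, G.Adj a b → b ∈ A) (hn : (A ∩ T).Nonempty) : T ⊆ A := by
  intro x hx
  exact (hT.2 (A ∩ T) Set.inter_subset_right hn
    (fun y hy z hz hyz => ⟨hcl y hy.1 z (hTs hz) hyz, hz⟩) hx).1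

theorem conn_comb {G : SimpleGraph V} {R : Set V} (hR : Conn G R) {ι : Type*} (C : ι → Set V)
    (hC : ∀ i, Conn G (C i)) (hRC : ∀ i, (R ∩ C i).Nonempty) (s : Set V)
    (hRs : R ⊆ s) (hCs : ∀ i, C i ⊆ s) (hs : ∀ x ∈ s, x ∈ R ∨ ∃ i, x ∈ C i) : Conn G s := by
  refine ⟨hR.1.mono hRs, ?_⟩
  intro A hA hne hcl
  have hRA : R ⊆ A := by
    obtain ⟨a, ha⟩ := hne
    rcases hs a (hA ha) with h | ⟨i, hi⟩
    · exact conn_full hR hRs hcl ⟨a, ha, h⟩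
    · have h1 := conn_full (hC i) (hCs i) hcl ⟨a, ha, hi⟩
      obtain ⟨b, hb, hb'⟩ := hRC i
      exact conn_full hR hRs hcl ⟨b, h1 hb', hb⟩
  intro x hx
  rcases hs x hx with h | ⟨i, hi⟩
  · exact hRA h
  · obtain ⟨b, hb, hb'⟩ := hRC i
    exact conn_full (hC i) (hCs i) hcl ⟨b, hRA hb, hb'⟩ hi

theorem conn_block {G : SimpleGraph V} (u : ℤ → ℤ → V) (m : ℤ)
    (u1 : ∀ a b, G.Adj (u a b) (u a (b + 1))) (u2 : ∀ a b, m ∣ b → G.Adj (u a b) (u (a + 1) b))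
    (P : ℤ → Prop) (r : ℤ) (hr : P r)
    (hup : ∀ x, r ≤ x → P (x + 1) → P x) (hdn : ∀ x, x ≤ r → P (x - 1) → P x)
    (c M : ℤ) (hM : 0 < M) (hc : m ∣ c) :
    Conn G {w | ∃ a b, P a ∧ (c ≤ b ∧ b < c + M) ∧ u a b = w} := by
  have hR : Conn G {v | ∃ x, P x ∧ u x c = v} :=
    conn_line (fun x => u x c) P r hr hup hdn (fun x _ _ => u2 x c hc)
  have hC : ∀ a : {a // P a}, Conn G {v | ∃ x, (c ≤ x ∧ x < c + M) ∧ u a.1 x = v} := fun a =>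
    conn_line (fun x => u a.1 x) (fun x => c ≤ x ∧ x < c + M) c ⟨le_refl _, by omega⟩
      (by rintro x hx ⟨h1, h2⟩; exact ⟨by omega, by omega⟩)
      (by rintro x hx ⟨h1, h2⟩; exact ⟨by omega, by omega⟩) (fun x _ _ => u1 a.1 x)
  refine conn_comb hR (fun a : {a // P a} => {v | ∃ x, (c ≤ x ∧ x < c + M) ∧ u a.1 x = v}) hC
    ?_ _ ?_ ?_ ?_
  · rintro ⟨a, ha⟩
    exact ⟨u a c, ⟨a, ha, rfl⟩, ⟨c, ⟨le_refl _, by omega⟩, rfl⟩⟩
  · rintro _ ⟨a, ha, rfl⟩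
    exact ⟨a, c, ha, ⟨le_refl _, by omega⟩, rfl⟩
  · rintro ⟨a, ha⟩ _ ⟨b, hb, rfl⟩
    exact ⟨a, b, ha, hb, rfl⟩
  · rintro _ ⟨a, b, ha, hb, rfl⟩
    exact Or.inr ⟨⟨a, ha⟩, ⟨b, hb, rfl⟩⟩

theorem star_of_layers {G : SimpleGraph V} (M m : ℤ) (hM : 0 < M) (hm : m ∣ M)
    (u v : ℤ → ℤ → V) (huv : ∀ a b c d, u a b ≠ v c d)
    (hu : ∀ a b c d, u a b = u c d → a = c ∧ b = d)
    (hv : ∀ a b c d, v a b = v c d → a = c ∧ b = d)
    (u1 : ∀ a b, G.Adj (u a b) (u a (b + 1))) (u2 : ∀ a b, m ∣ b → G.Adj (u a b) (u (a + 1) b))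
    (v1 : ∀ a b, G.Adj (v a b) (v a (b + 1))) (v2 : ∀ a b, m ∣ b → G.Adj (v a b) (v (a + 1) b))
    (Q : ℤ → ℤ → Set V) (hQ : ∀ i x, Conn G (Q i x)) (a0 b0 a1 b1 : ℤ)
    (Q0 : ∀ i x, u (a0 + M * i) (b0 + M * x) ∈ Q i x)
    (QD : ∀ i x a b, u a b ∈ Q i x → a = a0 + M * i ∧ b = b0 + M * x)
    (QV : ∀ i x a b, v a b ∉ Q i x)
    (Qd : ∀ i x i' x' w, w ∈ Q i x → w ∈ Q i' x' → i = i' ∧ x = x')
    (Qe : ∀ i x, ∃ q ∈ Q i x, G.Adj q (v (a1 + M * i) (b1 + M * x))) :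
    Mn (StarZ ℕ) G := by
  have dv : ∀ (c : ℤ) (x : ℤ), M * (c / M) + M * x ≤ c + M * x ∧
      c + M * x < M * (c / M) + M * x + M := by
    intro c x
    have h1 := Int.mul_ediv_add_emod c M
    have h2 := Int.emod_nonneg c (ne_of_gt hM)
    have h3 := Int.emod_lt_of_pos c hM
    constructor <;> omega
  have win : ∀ (c x y b : ℤ), M * (c / M) + M * x ≤ b → b < M * (c / M) + M * x + M →
      M * (c / M) + M * y ≤ b → b < M * (c / M) + M * y + M → x = y := by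
    intro c x y b h1 h2 h3 h4
    have a1 : M * x < M * (y + 1) := by rw [mul_add]; omega
    have a2 : M * y < M * (x + 1) := by rw [mul_add]; omega
    have b1 := lt_of_mul_lt_mul_left a1 (le_of_lt hM)
    have b2 := lt_of_mul_lt_mul_left a2 (le_of_lt hM)
    omega
  have dd : ∀ c x : ℤ, m ∣ M * (c / M) + M * x := fun c x =>
    dvd_add (hm.mul_right _) (hm.mul_right _)
  set C : ℤ → Set V := fun x => {w | ∃ a b, True ∧ (M * (b1 / M) + M * x ≤ b ∧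
    b < M * (b1 / M) + M * x + M) ∧ v a b = w} with hCdef
  set L : ℤ → ℤ → Set V := fun i x => {w | ∃ a b, (M * (a0 / M) + M * i ≤ a ∧
    a < M * (a0 / M) + M * i + M) ∧ (M * (b0 / M) + M * x ≤ b ∧
    b < M * (b0 / M) + M * x + M) ∧ u a b = w} with hLdef
  have hC : ∀ x, Conn G (C x) := fun x =>
    conn_block v m v1 v2 (fun _ => True) 0 trivial (fun _ _ _ => trivial) (fun _ _ _ => trivial)
      _ M hM (dd _ _)
  have hL : ∀ i x, Conn G (L i x) := fun i x =>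
    conn_block u m u1 u2 _ (M * (a0 / M) + M * i) ⟨le_refl _, by omega⟩
      (by rintro y hy ⟨h1, h2⟩; exact ⟨by omega, by omega⟩)
      (by rintro y hy ⟨h1, h2⟩; exact ⟨by omega, by omega⟩)
      _ M hM (dd _ _)
  have hLQ : ∀ i x, Conn G (L i x ∪ Q i x) := by
    intro i x
    refine conn_comb (hL i x) (fun _ : Unit => Q i x) (fun _ => hQ i x) ?_ _
      Set.subset_union_left (fun _ => Set.subset_union_right) ?_
    · intro _
      exact ⟨u (a0 + M * i) (b0 + M * x), ⟨_, _, dv a0 i, dv b0 x, rfl⟩, Q0 i x⟩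
    · rintro w (h | h)
      · exact Or.inl h
      · exact Or.inr ⟨(), h⟩
  have hCL : ∀ x i y w, w ∈ C x → w ∉ L i y ∪ Q i y := by
    rintro x i y _ ⟨a, b, _, _, rfl⟩ (⟨c, d, _, _, h⟩ | h)
    · exact huv _ _ _ _ h
    · exact QV _ _ _ _ h
  have hLQd : ∀ i x i' x' w, w ∈ L i x → w ∈ Q i' x' → i = i' ∧ x = x' := by
    rintro i x i' x' _ ⟨a, b, ⟨h1, h2⟩, ⟨h3, h4⟩, rfl⟩ h
    obtain ⟨e1, e2⟩ := QD _ _ _ _ h
    subst e1 e2
    exact ⟨win a0 _ _ _ h1 h2 (dv a0 i').1 (dv a0 i').2, win b0 _ _ _ h3 h4 (dv b0 x').1 (dv b0 x').2⟩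
  have hLL : ∀ i x i' x' w, w ∈ L i x → w ∈ L i' x' → i = i' ∧ x = x' := by
    rintro i x i' x' _ ⟨a, b, ⟨h1, h2⟩, ⟨h3, h4⟩, rfl⟩ ⟨a', b', ⟨h1', h2'⟩, ⟨h3', h4'⟩, h⟩
    obtain ⟨e1, e2⟩ := hu _ _ _ _ h
    subst e1 e2
    exact ⟨win a0 _ _ _ h1 h2 h1' h2', win b0 _ _ _ h3 h4 h3' h4'⟩
  have ln : ∀ x, ∃ a ∈ C x, ∃ b ∈ C (x + 1), G.Adj a b := by
    intro x
    refine ⟨v 0 (M * (b1 / M) + M * x + M - 1), ⟨_, _, trivial, ⟨by omega, by omega⟩, rfl⟩,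
      v 0 (M * (b1 / M) + M * x + M - 1 + 1), ⟨_, _, trivial, ⟨?_, ?_⟩, rfl⟩, v1 _ _⟩
    · rw [mul_add]; omega
    · rw [mul_add]; omega
  have ll : ∀ i x, ∃ a ∈ L i x, ∃ b ∈ L i (x + 1), G.Adj a b := by
    intro i x
    refine ⟨u (M * (a0 / M) + M * i) (M * (b0 / M) + M * x + M - 1),
      ⟨_, _, ⟨le_refl _, by omega⟩, ⟨by omega, by omega⟩, rfl⟩,
      u (M * (a0 / M) + M * i) (M * (b0 / M) + M * x + M - 1 + 1),
      ⟨_, _, ⟨le_refl _, by omega⟩, ⟨?_, ?_⟩, rfl⟩, u1 _ _⟩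
    · rw [mul_add]; omega
    · rw [mul_add]; omega
  refine ⟨fun p => match p.2 with
    | none => C p.1
    | some i => L (i : ℤ) p.1 ∪ Q (i : ℤ) p.1, ?_, ?_, ?_⟩
  · rintro ⟨x, _ | i⟩
    · exact hC x
    · exact hLQ _ _
  · rintro ⟨x, _ | i⟩ ⟨y, _ | j⟩ w hw hw'
    · obtain ⟨a, b, _, ⟨h1, h2⟩, rfl⟩ := hw
      obtain ⟨a', b', _, ⟨h1', h2'⟩, h⟩ := hw'
      obtain ⟨_, e2⟩ := hv _ _ _ _ h
      subst e2
      have := win b1 _ _ _ h1 h2 h1' h2'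
      simp only at this
      rw [this]
    · exact absurd hw' (hCL _ _ _ _ hw)
    · exact absurd hw (hCL _ _ _ _ hw')
    · have key : (i : ℤ) = j ∧ x = y := by
        rcases hw with hw | hw <;> rcases hw' with hw' | hw'
        · exact hLL _ _ _ _ _ hw hw'
        · exact hLQd _ _ _ _ _ hw hw'
        · obtain ⟨e1, e2⟩ := hLQd _ _ _ _ _ hw' hw
          exact ⟨e1.symm, e2.symm⟩
        · exact Qd _ _ _ _ _ hw hw'
      obtain ⟨e1, e2⟩ := key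
      have e1' : i = j := by exact_mod_cast e1
      rw [e1', e2]
  · have sp : ∀ (x : ℤ) (i : ℕ), ∃ a ∈ C x, ∃ b ∈ L (i : ℤ) x ∪ Q (i : ℤ) x, G.Adj a b := by
      intro x i
      obtain ⟨q, hq, hadj⟩ := Qe i x
      exact ⟨_, ⟨_, _, trivial, dv b1 x, rfl⟩, q, Or.inr hq, hadj.symm⟩
    rintro ⟨x, o⟩ ⟨y, o'⟩ hadj
    unfold StarZ at hadj
    rw [SimpleGraph.fromRel_adj] at hadj
    obtain ⟨hne, (⟨h1, h2⟩ | ⟨h1, h2⟩) | (⟨h1, h2⟩ | ⟨h1, h2⟩)⟩ := hadj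
    · simp only at h1 h2
      subst h1 h2
      rcases o with _ | i
      · exact ln x
      · obtain ⟨a, ha, b, hb, hab⟩ := ll i x
        exact ⟨a, Or.inl ha, b, Or.inl hb, hab⟩
    · simp only at h1 h2
      subst h1 h2
      rcases o' with _ | i
      · exact absurd rfl hne
      · exact sp x i
    · simp only at h1 h2
      subst h1 h2
      rcases o' with _ | i
      · obtain ⟨a, ha, b, hb, hab⟩ := ln y
        exact ⟨b, hb, a, ha, hab.symm⟩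
      · obtain ⟨a, ha, b, hb, hab⟩ := ll i y
        exact ⟨b, Or.inl hb, a, Or.inl ha, hab.symm⟩
    · simp only at h1 h2
      subst h1 h2
      rcases o with _ | i
      · exact absurd rfl hne
      · obtain ⟨a, ha, b, hb, hab⟩ := sp y i
        exact ⟨b, hb, a, ha, hab.symm⟩

end Pool.Agent.Helper95.NW
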