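import Pool.Agent.Helper95.NW.NqDefs
import Pool.Agent.Helper95.NW.Layers

set_option autoImplicit false

universe u

namespace Pool.Agent.Helper95.NW

open Pool.Agent.Helper52.Wq2 Pool.Agent.Helper61.NW

theorem conn_dom {V : Type*} {G : SimpleGraph V} {R s : Set V} (hR : Conn G R) (hRs : R ⊆ s)
    (hd : ∀ x ∈ s, ∃ r ∈ R, x = r ∨ G.Adj r x) : Conn G s := by
  refine ⟨hR.1.mono hRs, ?_⟩
  intro A hA hne hcl
  have hRA : R ⊆ A := by
    obtain ⟨a, ha⟩ := hne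
    obtain ⟨r, hr, h | h⟩ := hd a (hA ha)
    · exact conn_full hR hRs hcl ⟨a, ha, h ▸ hr⟩
    · exact conn_full hR hRs hcl ⟨r, hcl a ha r (hRs hr) h.symm, hr⟩
  intro x hx
  obtain ⟨r, hr, h | h⟩ := hd x hx
  · rw [h]; exact hRA hr
  · exact hcl r (hRA hr) x hx h

theorem nq_pair {q : ℕ} (x x' : ℤ) (j : Fin q) (ε ε' : Bool) (h : |x - x'| ≤ 1)
    (hne : x ≠ x' ∨ ε ≠ ε') : (Nq q).Adj (x, (j, ε)) (x', (j, ε')) := by
  unfold Nq
  rw [SimpleGraph.fromRel_adj]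
  refine ⟨?_, Or.inl (Or.inl ⟨rfl, h⟩)⟩
  intro he
  rw [Prod.mk.injEq, Prod.mk.injEq] at he
  rcases hne with h1 | h1
  · exact h1 he.1
  · exact h1 he.2.2

theorem nq_next {q : ℕ} (x : ℤ) (j j' : Fin q) (h : (j' : ℕ) = (j : ℕ) + 1) :
    (Nq q).Adj (x, (j, true)) (x, (j', false)) := by
  unfold Nq
  rw [SimpleGraph.fromRel_adj]
  refine ⟨?_, Or.inl (Or.inr ⟨rfl, h, rfl, rfl⟩)⟩
  intro he
  rw [Prod.mk.injEq, Prod.mk.injEq] at he
  exact absurd he.2.2 (by simp)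

/-- The staircase with base `b`. -/
def Cen (q : ℕ) (b : ℤ) (v : ℤ × (Fin q × Bool)) : Prop :=
  (v.2.2 = false ∧ (v.1 = b + (v.2.1 : ℕ) ∨ v.1 = b + 2 * q + 1 - (v.2.1 : ℕ))) ∨
  (v.2.2 = true ∧ (v.1 = b + (v.2.1 : ℕ) + 1 ∨ v.1 = b + 2 * q - (v.2.1 : ℕ)))

theorem cen_conn (q : ℕ) (hq : 0 < q) (b : ℤ) : Conn (Nq q) {v | Cen q b v} := by
  refine conn_of_root (r := (b, (⟨0, hq⟩, false))) (Or.inl ⟨rfl, Or.inl (by simp)⟩) ?_
  set P : ℤ × (Fin q × Bool) → Prop := fun v =>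
    Relation.ReflTransGen (fun a b' => (Nq q).Adj a b' ∧ b' ∈ {v | Cen q b v})
      (b, (⟨0, hq⟩, false)) v with hP
  have step : ∀ a c, P a → (Nq q).Adj a c → Cen q b c → P c := fun a c h1 h2 h3 => h1.tail ⟨h2, h3⟩
  have right : ∀ j (hj : j < q), P (b + j, (⟨j, hj⟩, false)) ∧ P (b + j + 1, (⟨j, hj⟩, true)) := by
    intro j
    induction j with
    | zero =>
      intro hj
      have h0 : P (b + (0 : ℕ), (⟨0, hj⟩, false)) := by
        rw [Nat.cast_zero, add_zero]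
      refine ⟨h0, step _ _ h0 (nq_pair _ _ _ _ _ ?_ (Or.inl (by omega))) ?_⟩
      · rw [abs_le]; constructor <;> omega
      · exact Or.inr ⟨rfl, Or.inl rfl⟩
    | succ j ih =>
      intro hj
      obtain ⟨_, h2⟩ := ih (by omega)
      have h3 : P (b + (j + 1 : ℕ), (⟨j + 1, hj⟩, false)) := by
        refine step _ _ h2 ?_ (Or.inl ⟨rfl, Or.inl rfl⟩)
        have e : b + ((j + 1 : ℕ) : ℤ) = b + j + 1 := by push_cast; ring
        rw [e]
        exact nq_next _ _ _ rfl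
      refine ⟨h3, step _ _ h3 (nq_pair _ _ _ _ _ ?_ (Or.inl (by omega))) ?_⟩
      · rw [abs_le]; constructor <;> omega
      · exact Or.inr ⟨rfl, Or.inl rfl⟩
  have left : ∀ k j (hj : j < q), j + k + 1 = q → P (b + 2 * q - j, (⟨j, hj⟩, true)) ∧
      P (b + 2 * q + 1 - j, (⟨j, hj⟩, false)) := by
    intro k
    induction k with
    | zero =>
      intro j hj hk
      obtain ⟨_, h2⟩ := right j hj
      have h3 : P (b + 2 * q - j, (⟨j, hj⟩, true)) := by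
        refine step _ _ h2 (nq_pair _ _ _ _ _ ?_ (Or.inl (by omega))) ?_
        · rw [abs_le]; constructor <;> omega
        · exact Or.inr ⟨rfl, Or.inr rfl⟩
      refine ⟨h3, step _ _ h3 (nq_pair _ _ _ _ _ ?_ (Or.inl (by omega))) ?_⟩
      · rw [abs_le]; constructor <;> omega
      · exact Or.inl ⟨rfl, Or.inr rfl⟩
    | succ k ih =>
      intro j hj hk
      obtain ⟨_, h2⟩ := ih (j + 1) (by omega) (by omega)
      have h3 : P (b + 2 * q - j, (⟨j, hj⟩, true)) := by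
        refine step _ _ h2 ?_ (Or.inr ⟨rfl, Or.inr rfl⟩)
        have e : b + 2 * q + 1 - ((j + 1 : ℕ) : ℤ) = b + 2 * q - j := by push_cast; ring
        rw [e]
        exact (nq_next _ _ _ rfl).symm
      refine ⟨h3, step _ _ h3 (nq_pair _ _ _ _ _ ?_ (Or.inl (by omega))) ?_⟩
      · rw [abs_le]; constructor <;> omega
      · exact Or.inl ⟨rfl, Or.inr rfl⟩
  rintro ⟨x, ⟨j, ε⟩⟩ (⟨h1, h2 | h2⟩ | ⟨h1, h2 | h2⟩)
  · simp only at h1 h2
    subst h1 h2
    exact (right j.1 j.2).1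
  · simp only at h1 h2
    subst h1 h2
    exact (left (q - 1 - j.1) j.1 j.2 (by have := j.2; omega)).2
  · simp only at h1 h2
    subst h1 h2
    exact (right j.1 j.2).2
  · simp only at h1 h2
    subst h1 h2
    exact (left (q - 1 - j.1) j.1 j.2 (by have := j.2; omega)).1

/-- The side used by leaf `j` at height `x`. -/
def gs (q : ℕ) (b : ℤ) (j : Fin q) (x : ℤ) : Bool :=
  decide (x = b + (j : ℕ) ∨ x = b + 2 * q + 1 - (j : ℕ))

theorem gs_mem (q : ℕ) (b : ℤ) (j : Fin q) (x : ℤ) : ¬ Cen q b (x, (j, gs q b j x)) := by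
  have hj := j.2
  unfold Cen gs
  simp only
  by_cases h : x = b + (j : ℕ) ∨ x = b + 2 * q + 1 - (j : ℕ)
  · rw [decide_eq_true h]
    rintro (⟨h1, _⟩ | ⟨_, h1⟩)
    · exact absurd h1 (by simp)
    · omega
  · rw [decide_eq_false h]
    rintro (⟨_, h1⟩ | ⟨h1, _⟩)
    · exact h h1
    · exact absurd h1 (by simp)

theorem leaf_conn (q : ℕ) (b T : ℤ) (hT : 0 < T) (j : Fin q) :
    Conn (Nq q) {v | v.2.1 = j ∧ (b ≤ v.1 ∧ v.1 < b + T) ∧ ¬ Cen q b v} := by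
  have hR : Conn (Nq q) {v | ∃ x, (b ≤ x ∧ x < b + T) ∧
      ((x, (j, gs q b j x)) : ℤ × (Fin q × Bool)) = v} :=
    conn_line (fun x => ((x, (j, gs q b j x)) : ℤ × (Fin q × Bool)))
      (fun x => b ≤ x ∧ x < b + T) b ⟨le_refl _, by omega⟩
      (by rintro x hx ⟨h1, h2⟩; exact ⟨by omega, by omega⟩)
      (by rintro x hx ⟨h1, h2⟩; exact ⟨by omega, by omega⟩)
      (fun x _ _ => nq_pair _ _ _ _ _ (by rw [abs_le]; constructor <;> omega)
        (Or.inl (by omega)))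
  refine conn_dom hR ?_ ?_
  · rintro _ ⟨x, hx, rfl⟩
    exact ⟨rfl, hx, gs_mem _ _ _ _⟩
  · rintro ⟨x, ⟨j', ε⟩⟩ ⟨h1, h2, _⟩
    simp only at h1 h2
    subst h1
    refine ⟨(x, (j', gs q b j' x)), ⟨x, h2, rfl⟩, ?_⟩
    by_cases hε : ε = gs q b j' x
    · left; rw [hε]
    · right
      exact nq_pair _ _ _ _ _ (by simp) (Or.inr (fun h => hε h.symm))

theorem cen_win {q : ℕ} {b : ℤ} {v : ℤ × (Fin q × Bool)} (h : Cen q b v) :
    b ≤ v.1 ∧ v.1 < b + (2 * q + 2) := by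
  have hj := v.2.1.2
  rcases h with ⟨_, h | h⟩ | ⟨_, h | h⟩ <;> rw [h] <;> constructor <;> omega

theorem nq1 : Nq1Stmt := by
  intro q hq
  set T : ℤ := 2 * q + 2 with hT
  have hT0 : 0 < T := by omega
  have win : ∀ (x y b : ℤ), T * x ≤ b → b < T * x + T → T * y ≤ b → b < T * y + T → x = y := by
    intro x y b h1 h2 h3 h4
    have a1 : T * x < T * (y + 1) := by rw [mul_add]; omega
    have a2 : T * y < T * (x + 1) := by rw [mul_add]; omega
    have b1 := lt_of_mul_lt_mul_left a1 (le_of_lt hT0)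
    have b2 := lt_of_mul_lt_mul_left a2 (le_of_lt hT0)
    omega
  refine ⟨fun p => match p.2 with
    | none => {v | Cen q (T * p.1) v}
    | some j => {v | v.2.1 = j ∧ (T * p.1 ≤ v.1 ∧ v.1 < T * p.1 + T) ∧ ¬ Cen q (T * p.1) v},
    ?_, ?_, ?_⟩
  · rintro ⟨x, _ | j⟩
    · exact cen_conn q hq _
    · exact leaf_conn q _ T hT0 j
  · rintro ⟨x, _ | i⟩ ⟨y, _ | j⟩ w hw hw'
    · obtain ⟨h1, h2⟩ := cen_win hw
      obtain ⟨h3, h4⟩ := cen_win hw'
      have := win x y _ h1 h2 h3 h4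
      rw [this]
    · obtain ⟨h1, h2⟩ := cen_win hw
      obtain ⟨_, ⟨h3, h4⟩, h5⟩ := hw'
      have := win x y _ h1 h2 h3 h4
      subst this
      exact absurd hw h5
    · obtain ⟨h1, h2⟩ := cen_win hw'
      obtain ⟨_, ⟨h3, h4⟩, h5⟩ := hw
      have := win x y _ h3 h4 h1 h2
      subst this
      exact absurd hw' h5
    · obtain ⟨e1, ⟨h1, h2⟩, _⟩ := hw
      obtain ⟨e2, ⟨h3, h4⟩, _⟩ := hw'
      have := win x y _ h1 h2 h3 h4
      subst this
      have : i = j := e1.symm.trans e2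
      rw [this]
  · have ln : ∀ (y : ℤ), ∃ a ∈ {v | Cen q (T * y) v}, ∃ b ∈ {v | Cen q (T * (y + 1)) v},
        (Nq q).Adj a b := by
      intro y
      refine ⟨(T * y + 2 * q + 1, (⟨0, hq⟩, false)), Or.inl ⟨rfl, Or.inr (by simp)⟩,
        (T * (y + 1), (⟨0, hq⟩, false)), Or.inl ⟨rfl, Or.inl (by simp)⟩,
        nq_pair _ _ _ _ _ ?_ (Or.inl ?_)⟩
      · rw [abs_le, mul_add]; constructor <;> omega
      · rw [mul_add]; omega
    have ll : ∀ (y : ℤ) (j : Fin q), ∃ a ∈ ({v | v.2.1 = j ∧ (T * y ≤ v.1 ∧ v.1 < T * y + T) ∧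
        ¬ Cen q (T * y) v} : Set (ℤ × (Fin q × Bool))),
        ∃ b ∈ ({v | v.2.1 = j ∧ (T * (y + 1) ≤ v.1 ∧ v.1 < T * (y + 1) + T) ∧
        ¬ Cen q (T * (y + 1)) v} : Set (ℤ × (Fin q × Bool))), (Nq q).Adj a b := by
      intro y j
      refine ⟨(T * y + T - 1, (j, gs q (T * y) j _)), ⟨rfl, ⟨by simp only; omega, by simp only; omega⟩,
        gs_mem _ _ _ _⟩, (T * (y + 1), (j, gs q (T * (y + 1)) j _)),
        ⟨rfl, ⟨le_refl _, by simp only; omega⟩, gs_mem _ _ _ _⟩, nq_pair _ _ _ _ _ ?_ (Or.inl ?_)⟩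
      · rw [abs_le, mul_add]; constructor <;> omega
      · rw [mul_add]; omega
    have sp : ∀ (y : ℤ) (j : Fin q), ∃ a ∈ {v | Cen q (T * y) v},
        ∃ b ∈ ({v | v.2.1 = j ∧ (T * y ≤ v.1 ∧ v.1 < T * y + T) ∧
        ¬ Cen q (T * y) v} : Set (ℤ × (Fin q × Bool))), (Nq q).Adj a b := by
      intro y j
      have hj := j.2
      refine ⟨(T * y + (j : ℕ), (j, false)), Or.inl ⟨rfl, Or.inl rfl⟩,
        (T * y + (j : ℕ), (j, true)), ⟨rfl, ⟨by simp only; omega, by simp only; omega⟩, ?_⟩,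
        nq_pair _ _ _ _ _ (by simp) (Or.inr (by simp))⟩
      rintro (⟨h1, _⟩ | ⟨_, h1⟩)
      · exact absurd h1 (by simp)
      · simp only at h1
        omega
    rintro ⟨x, o⟩ ⟨y, o'⟩ hadj
    unfold StarZ at hadj
    rw [SimpleGraph.fromRel_adj] at hadj
    obtain ⟨hne, (⟨h1, h2⟩ | ⟨h1, h2⟩) | (⟨h1, h2⟩ | ⟨h1, h2⟩)⟩ := hadj
    · simp only at h1 h2
      subst h1 h2
      rcases o with _ | i
      · exact ln x
      · exact ll x i
    · simp only at h1 h2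
      subst h1 h2
      rcases o' with _ | i
      · exact absurd rfl hne
      · exact sp x i
    · simp only at h1 h2
      subst h1 h2
      rcases o' with _ | i
      · obtain ⟨a, ha, b, hb, hab⟩ := ln y
        exact ⟨b, hb, a, ha, hab.symm⟩
      · obtain ⟨a, ha, b, hb, hab⟩ := ll y i
        exact ⟨b, hb, a, ha, hab.symm⟩
    · simp only at h1 h2
      subst h1 h2
      rcases o with _ | i
      · exact absurd rfl hne
      · obtain ⟨a, ha, b, hb, hab⟩ := sp y i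
        exact ⟨b, hb, a, ha, hab.symm⟩

end Pool.Agent.Helper95.NW
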