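import Pool.Agent.Helper61.NW.Goals

/-!
# Split of CRX through a normalized graph
-/

set_option autoImplicit false

universe u

namespace Pool.Agent.Helper95.NW

open Pool.Agent.Helper52.Wq2 Pool.Agent.Helper61.NW

/-- Normalized graph: `q` pairs of lines; pair `j` is the two-way infinite path blown up by `K₂`
(`(x, j, ε) ~ (x', j, ε')` for `|x - x'| ≤ 1`), consecutive pairs are joined by the edges
`(x, j, true) ~ (x, j + 1, false)`. -/
def Nq (q : ℕ) : SimpleGraph (ℤ × (Fin q × Bool)) :=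
  SimpleGraph.fromRel (fun a b => (a.2.1 = b.2.1 ∧ |a.1 - b.1| ≤ 1) ∨
    (a.1 = b.1 ∧ (b.2.1 : ℕ) = (a.2.1 : ℕ) + 1 ∧ a.2.2 = true ∧ b.2.2 = false))

/-- **NQ1.** The centre strand sweeps right and left with period `T = 2 q + 2`:
`(T y + j, j, false)`, `(T y + j + 1, j, true)`, `(T y + 2 q - j, j, true)`,
`(T y + 2 q - j + 1, j, false)`; leaf `j` at `y` = the other vertices of pair `j` with height in
`[T y, T (y + 1))`. -/
def Nq1Stmt : Prop := ∀ q : ℕ, 0 < q → Mn (StarZ (Fin q)) (Nq q)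

/-- **NQ2.** Branch set of `(x, j, ε)`: the elements `g` of the line `c + 2 j + ε` with
`P j + 1 + 3 m x ≤ pos g < P j + 1 + 3 m (x + 1)`, `pos g = h g / H`, where `P j + 1 ∈ [0, m)` and the
crossing of the gap `c + 2 j` is at positions `P j`, `P j + 1` (modulo `m`). -/
def Nq2Stmt : Prop := ∀ (Γ : Type u) [Group Γ] (S : Set Γ) (h : Γ → ℤ) (s : Γ) (H n m : ℕ),
  Two S h s H n m → 3 ≤ n → ∀ e, IsCyc S s n e → ∀ (q : ℕ) (c : ZMod n), 2 * q ≤ n →
  (∀ j : Fin q, Crs S h s H n e (c + 2 * ((j : ℕ) : ZMod n))) → Mn (Nq q) (cay S)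

/-- **NQ3.** Crossings alternate or are everywhere. -/
def Nq3Stmt : Prop := ∀ (Γ : Type u) [Group Γ] (S : Set Γ) (h : Γ → ℤ) (s : Γ) (H n m : ℕ),
  Two S h s H n m → 3 ≤ n → ∀ e, IsCyc S s n e → (∃ j, Crs S h s H n e j) →
  ∃ c : ZMod n, ∀ j : ℕ, Crs S h s H n e (c + 2 * (j : ZMod n))

end Pool.Agent.Helper95.NW
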